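import Pool.Agent.Lib.MP_322279_an.All.Main

/-!
Every circular conical point in three dimensions other than a flat one fails to be Wiener regular
for some strongly elliptic operator with constant complex coefficients, and the Sobolev exponent
of the solutions cannot be improved there.
-/

open MeasureTheory Set Filter Topology Metric
open Pool.Agent.Lib.MP_322279_an Pool.Agent.Lib.MP_322279_an.All

theorem Pool.Agent.Results.MP_322279_an.AllCircularCones.result :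
    ∀ h p : ℝ, -1 < h → h < 1 → h ≠ 0 → 6 < p →
      ∃ A : Fin 3 → Fin 3 → ℂ,
        (∀ i j, A i j = A j i) ∧
        (∃ c : ℝ, 0 < c ∧ ∀ ξ : E3, c * ‖ξ‖ ^ 2 ≤ (∑ i, ∑ j, A i j * ξ i * ξ j).re) ∧
        ∀ Ω : Set E3, IsOpen Ω → Bornology.IsBounded Ω →
          (∃ ρ : ℝ, 0 < ρ ∧ Ω ∩ ball 0 ρ = {x : E3 | ‖x‖ < ρ ∧ h * ‖x‖ < x 2}) →
          ∃ f : E3 → ℂ, IsTest Ω f ∧ (∀ x, (f x).im = 0) ∧ (∃ u, IsSolution A Ω f u) ∧
            ∀ u, IsSolution A Ω f u →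
              (∀ r : ℝ, 0 < r →
                ¬ MemLp u (ENNReal.ofReal p) (volume.restrict (Ω ∩ ball 0 r)) ∧
                ∀ C : ℝ, ∃ x ∈ Ω, ‖x‖ < r ∧ C < ‖u x‖) ∧
              ¬ Tendsto u (𝓝[Ω] 0) (𝓝 0) := by
  intro h p h1 h2 h0 hp
  obtain ⟨d, c, hc, hd, H⟩ := main_all h1 h2 h0 hp
  refine ⟨diagM d, fun i j => ?_, ⟨c, hc, fun ξ => ?_⟩, fun Ω o b ⟨ρ, ρ0, hρ⟩ => ?_⟩
  · by_cases h : i = j
    · rw [h]
    · simp [diagM, h, Ne.symm h]
  · rw [EuclideanSpace.real_norm_sq_eq, Complex.re_sum, Finset.mul_sum]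
    refine Finset.sum_le_sum fun i _ => ?_
    have : ∑ j, diagM d i j * ξ i * ξ j = d i * ((ξ i ^ 2 : ℝ) : ℂ) := by
      simp [diagM, sq, mul_assoc]
    rw [this, Complex.re_mul_ofReal]
    exact mul_le_mul_of_nonneg_right (hd i) (sq_nonneg _)
  obtain ⟨R, R0, hR⟩ := b.subset_ball_lt 0 0
  obtain ⟨f, hf, fr, K⟩ := H Ω (min ρ 1) R o R0 hR (lt_min ρ0 one_pos) (min_le_right _ _) (by
    ext x
    have e := Set.ext_iff.1 hρ x
    simp only [Oh, mem_inter_iff, mem_ball_zero_iff, mem_ofPred_eq, lt_min_iff] at e ⊢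
    tauto)
  have U : ∀ u, IsSolution (diagM d) Ω f u → ∀ r : ℝ, 0 < r →
      ∀ C : ℝ, ∃ x ∈ Ω, ‖x‖ < r ∧ C < ‖u x‖ := fun u hu r r0 C => by
    by_contra k
    push Not at k
    have : IsFiniteMeasure (volume.restrict (Ω ∩ ball (0 : E3) r)) :=
      isFiniteMeasure_restrict.2 ((measure_mono inter_subset_right).trans_lt measure_ball_lt_top).ne
    exact K u hu r r0 (MemLp.of_bound
      (hu.1.1.1.mono_measure (Measure.restrict_mono inter_subset_left le_rfl)) C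
      ((ae_restrict_mem (o.inter isOpen_ball).measurableSet).mono fun x hx =>
        k x hx.1 (mem_ball_zero_iff.1 hx.2)))
  refine ⟨f, hf, fr, ?_, fun u hu => ⟨fun r r0 => ⟨K u hu r r0, U u hu r r0⟩, fun l => ?_⟩⟩
  · obtain ⟨u, g, k1, k2⟩ := exists_weakR o R0 hR hc hd (hf.memLp _)
    exact ⟨u, inH10_iff.2 ⟨g, k1⟩, fun φ hφ =>
      neg_injective ((k1.green_test o hφ).symm.trans (k2 φ hφ))⟩
  · obtain ⟨r, r0, hr⟩ := Metric.tendsto_nhdsWithin_nhds.1 l 1 one_pos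
    obtain ⟨x, k1, k2, k3⟩ := U u hu r r0 1
    have k4 := hr k1 (by simpa using k2)
    rw [dist_zero_right] at k4
    linarith
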